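import Pool.Agent.H34.FQ.Targets

/-!
# Row TR1 of hfq_modules: from the random model to the box
-/

set_option autoImplicit false

open Finset Pool.Agent.H32.RQ Pool.Agent.H34.FQ

namespace Pool.Agent.H67.HFQ

theorem coef_le {s A : ℕ} {f : Mon s → ℤ} (hf : f ∈ b1 s A) (p : Mon s) : |f p| ≤ (A : ℤ) := by
  have h := Fintype.mem_piFinset.1 hf p
  rw [Finset.mem_Icc] at h
  exact abs_le.2 h

theorem vec_le {s B : ℕ} {x : Fin s → ℤ} (hx : x ∈ vb s B) (j : Fin s) :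
    |x j| ≤ (B : ℤ) := by
  have h := Fintype.mem_piFinset.1 hx j
  rw [Finset.mem_Icc] at h
  exact abs_le.2 h

theorem qf_abs_le {s A B : ℕ} (f : Mon s → ℤ) (x : Fin s → ℤ) (hf : f ∈ b1 s A)
    (hx : x ∈ vb s B) : |qf f x| ≤ ((md s * A * B ^ 2 : ℕ) : ℤ) := by
  unfold qf
  refine (Finset.abs_sum_le_sum_abs _ _).trans ?_
  calc ∑ p, |f p * (x p.1.1 * x p.1.2)| ≤ ∑ _p : Mon s, (A : ℤ) * ((B : ℤ) * B) := by
        apply Finset.sum_le_sum
        intro p _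
        rw [abs_mul, abs_mul]
        exact mul_le_mul (coef_le hf p) (mul_le_mul (vec_le hx _) (vec_le hx _) (abs_nonneg _)
          (Nat.cast_nonneg _)) (by positivity) (by positivity)
    _ = _ := by
        rw [Finset.sum_const, Finset.card_univ, nsmul_eq_mul]
        push_cast
        ring

theorem qf_cast {s : ℕ} (Q : ℕ) (f : Mon s → ℤ) (x : Fin s → ℤ) :
    qf (cf (ZMod Q) f) (fun j => (x j : ZMod Q)) = ((qf f x : ℤ) : ZMod Q) := by
  unfold qf cf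
  push_cast
  rfl

theorem cf_inj {s A Q : ℕ} (h : 2 * A < Q) (f f' : Mon s → ℤ)
    (hf : f ∈ b1 s A) (hf' : f' ∈ b1 s A) (he : cf (ZMod Q) f = cf (ZMod Q) f') : f = f' := by
  funext p
  have h1 : ((f p : ℤ) : ZMod Q) = ((f' p : ℤ) : ZMod Q) := congrFun he p
  have h2 : ((f p - f' p : ℤ) : ZMod Q) = 0 := by
    push_cast
    rw [h1, sub_self]
  have h3 : (Q : ℤ) ∣ f p - f' p := (ZMod.intCast_zmod_eq_zero_iff_dvd _ Q).1 h2
  have h4 : |f p - f' p| < (Q : ℤ) := by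
    have a1 := coef_le hf p
    have a2 := coef_le hf' p
    have a3 := abs_sub (f p) (f' p)
    have a4 : 2 * (A : ℤ) < Q := by exact_mod_cast h
    linarith
  have h5 := Int.eq_zero_of_abs_lt_dvd h3 h4
  linarith

theorem w1_ge (hFJB : T_FJB) {s A J Q : ℕ} [NeZero Q] (hJ : 1 ≤ J) (hQ : Q = 2 * A * J)
    (f : Mon s → ℤ) (hf : f ∈ b1 s A) :
    ((4 : ℝ) / 10) ^ md s ≤ w1 Q J (cf (ZMod Q) f) := by
  have h1 : ∀ p : Mon s, (4 : ℝ) / 10 ≤ fj Q J (cf (ZMod Q) f p) := by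
    intro p
    apply (hFJB Q J hJ).2.2
    have a1 := coef_le hf p
    have a2 : (0 : ℤ) ≤ 2 * (J : ℤ) := by positivity
    calc 2 * (J : ℤ) * |f p| ≤ 2 * (J : ℤ) * A := mul_le_mul_of_nonneg_left a1 a2
      _ = Q := by rw [hQ]; push_cast; ring
  unfold w1
  have h2 : ∏ _p : Mon s, ((4 : ℝ) / 10) = ((4 : ℝ) / 10) ^ md s := by
    rw [Finset.prod_const, Finset.card_univ]
  rw [← h2]
  apply Finset.prod_le_prod
  · intro p _
    norm_num
  · intro p _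
    exact h1 p

theorem lam_nonneg (hFJB : T_FJB) {Q W T : ℕ} [NeZero Q] (hQT : 1 ≤ Q / T)
    (v : ZMod Q) : 0 ≤ lam Q W T v := by
  unfold lam
  split_ifs
  · have := ((hFJB Q (Q / T) hQT).1 v).1
    positivity
  · exact le_rfl

theorem lam_ge (hFJB : T_FJB) {Q W T : ℕ} [NeZero Q] (hQT : 1 ≤ Q / T) (hW : W ∣ Q)
    (hT : T ∣ Q) (z : ℤ) (h1 : (W : ℤ) ∣ z) (h2 : 2 * |z| ≤ T) :
    (W : ℝ) / T * (4 / 10) ≤ lam Q W T (z : ZMod Q) := by
  have h3 : W ∣ (z : ZMod Q).val := by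
    have e1 : (((z : ZMod Q).val : ℕ) : ℤ) = z % Q := ZMod.val_intCast z
    have e2 : (W : ℤ) ∣ (((z : ZMod Q).val : ℕ) : ℤ) := by
      rw [e1]
      exact (EuclideanDomain.dvd_mod_iff (by exact_mod_cast hW)).2 h1
    exact_mod_cast e2
  unfold lam
  rw [if_pos h3]
  apply mul_le_mul_of_nonneg_left _ (by positivity)
  apply (hFJB Q (Q / T) hQT).2.2
  have e3 : ((Q / T : ℕ) : ℤ) * (T : ℤ) = Q := by
    exact_mod_cast Nat.div_mul_cancel hT
  calc 2 * ((Q / T : ℕ) : ℤ) * |z| = ((Q / T : ℕ) : ℤ) * (2 * |z|) := by ring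
    _ ≤ ((Q / T : ℕ) : ℤ) * T := mul_le_mul_of_nonneg_left h2 (Nat.cast_nonneg _)
    _ = Q := e3

theorem pf_TR1 (hFJB : T_FJB) : T_TR1 := by
  classical
  intro s A B J Q W T _ S E M₀ hA hJ hQ hW hWQ hTQ hWT h2A hB hS hE hM0 hmain
  have hQpos : 0 < Q := Nat.pos_of_ne_zero (NeZero.ne Q)
  have hTpos : 0 < T := Nat.pos_of_dvd_of_pos hTQ hQpos
  have hQT : 1 ≤ Q / T := Nat.div_pos (Nat.le_of_dvd hQpos hTQ) hTpos
  have hnn : ∀ F : Mon s → ZMod Q,
      0 ≤ w1 Q J F * (n1 Q S F - l1 Q W T S F) ^ 2 := by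
    intro F
    apply mul_nonneg _ (sq_nonneg _)
    unfold w1
    apply Finset.prod_nonneg
    intro p _
    exact ((hFJB Q J hJ).1 _).1
  have hterm : ∀ f ∈ E, ((4 : ℝ) / 10) ^ md s * ((W : ℝ) / T * (4 / 10) * M₀) ^ 2 ≤
      w1 Q J (cf (ZMod Q) f) * (n1 Q S (cf (ZMod Q) f) - l1 Q W T S (cf (ZMod Q) f)) ^ 2 := by
    intro f hf
    have hfb : f ∈ b1 s A := hE hf
    obtain ⟨m1, m2⟩ := hmain f hf
    have hww := w1_ge hFJB hJ hQ f hfb
    have hn0 : n1 Q S (cf (ZMod Q) f) = 0 := by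
      unfold n1
      apply Finset.sum_eq_zero
      intro x hx
      rw [if_neg]
      intro e1
      apply m1 x hx
      rw [qf_cast] at e1
      have e2 : (Q : ℤ) ∣ qf f x := (ZMod.intCast_zmod_eq_zero_iff_dvd _ Q).1 e1
      apply Int.eq_zero_of_abs_lt_dvd e2
      have e3 := qf_abs_le f x hfb (hS hx)
      have e4 : ((md s * A * B ^ 2 : ℕ) : ℤ) < Q := by
        have : md s * A * B ^ 2 < Q := by
          have h5 : 2 * md s * A * B ^ 2 = 2 * (md s * A * B ^ 2) := by ring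
          omega
        exact_mod_cast this
      linarith
    have hl : (W : ℝ) / T * (4 / 10) * M₀ ≤ l1 Q W T S (cf (ZMod Q) f) := by
      unfold l1
      have hnn2 : ∀ x ∈ S, 0 ≤ lam Q W T (qf (cf (ZMod Q) f) (fun j => (x j : ZMod Q))) :=
        fun x _ => lam_nonneg hFJB hQT _
      calc (W : ℝ) / T * (4 / 10) * M₀ ≤ (W : ℝ) / T * (4 / 10) *
            ((S.filter fun x => (W : ℤ) ∣ qf f x ∧ 2 * |qf f x| ≤ T).card : ℝ) :=
            mul_le_mul_of_nonneg_left m2 (by positivity)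
        _ = ∑ x ∈ S.filter fun x => (W : ℤ) ∣ qf f x ∧ 2 * |qf f x| ≤ T,
            ((W : ℝ) / T * (4 / 10)) := by
            rw [Finset.sum_const, nsmul_eq_mul]
            ring
        _ ≤ ∑ x ∈ S.filter fun x => (W : ℤ) ∣ qf f x ∧ 2 * |qf f x| ≤ T,
            lam Q W T (qf (cf (ZMod Q) f) (fun j => (x j : ZMod Q))) := by
            apply Finset.sum_le_sum
            intro x hx
            rw [Finset.mem_filter] at hx
            rw [qf_cast]
            exact lam_ge hFJB hQT hWQ hTQ _ hx.2.1 hx.2.2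
        _ ≤ _ := Finset.sum_le_sum_of_subset_of_nonneg (Finset.filter_subset _ _)
            (fun x hx _ => hnn2 x hx)
    have hl0 : 0 ≤ (W : ℝ) / T * (4 / 10) * M₀ := by positivity
    rw [hn0, zero_sub, neg_sq]
    apply mul_le_mul hww (pow_le_pow_left₀ hl0 hl 2) (sq_nonneg _)
    exact le_trans (by positivity) hww
  calc (E.card : ℝ) * ((4 / 10) ^ md s * ((W : ℝ) / T * (4 / 10) * M₀) ^ 2) =
      ∑ _f ∈ E, ((4 : ℝ) / 10) ^ md s * ((W : ℝ) / T * (4 / 10) * M₀) ^ 2 := by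
        rw [Finset.sum_const, nsmul_eq_mul]
    _ ≤ ∑ f ∈ E, w1 Q J (cf (ZMod Q) f) *
        (n1 Q S (cf (ZMod Q) f) - l1 Q W T S (cf (ZMod Q) f)) ^ 2 := Finset.sum_le_sum hterm
    _ = ∑ F ∈ E.image (cf (ZMod Q)), w1 Q J F * (n1 Q S F - l1 Q W T S F) ^ 2 := by
        rw [Finset.sum_image]
        intro f hf f' hf' he
        exact cf_inj h2A f f' (hE hf) (hE hf') he
    _ ≤ _ := Finset.sum_le_sum_of_subset_of_nonneg (Finset.subset_univ _) (fun F _ _ => hnn F)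

end Pool.Agent.H67.HFQ
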