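import Pool.Agent.H34.FQ.Targets
import Pool.Agent.H67.HFQ.TR1

/-!
# Row ECD of hfq_modules: the number of the points
-/

set_option autoImplicit false

open Finset Pool.Agent.H32.RQ Pool.Agent.H34.FQ

namespace Pool.Agent.H67.HFQ

variable {n : ℕ} {F : Mon (n + 2) → ℤ}

theorem dvd_r (N : NF F) (l : ℕ) (e : Fin (n + 2) → ℤ) (h0 : (l : ℤ) ∣ e 0)
    (h : N.mu * e 0 * e 1 + qf N.q (cv (e 0) (vt e)) = 0) : (l : ℤ) ∣ qf N.r (vt e) := by
  rw [← ZMod.intCast_zmod_eq_zero_iff_dvd]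
  have h1 : ((e 0 : ℤ) : ZMod l) = 0 := (ZMod.intCast_zmod_eq_zero_iff_dvd _ _).2 h0
  have h2 : ((N.mu * e 0 * e 1 + qf N.q (cv (e 0) (vt e)) : ℤ) : ZMod l) = 0 := by
    rw [h]; simp
  push_cast at h2
  rw [h1, mul_zero, zero_mul, zero_add, ← qf_cast] at h2
  have h3 : (fun j => (((cv (e 0) (vt e)) j : ℤ) : ZMod l)) = cv 0 (fun i => ((vt e i : ℤ) : ZMod l)) := by
    funext j
    refine Fin.cases ?_ (fun i => ?_) j
    · simp only [cv, Fin.cons_zero]
      exact h1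
    · simp only [cv, Fin.cons_succ]
  rw [h3, N.hr, qf_cast] at h2
  exact h2

theorem ext_e (N : NF F) (e e' : Fin (n + 2) → ℤ) (h0 : e 0 = e' 0) (hne : e 0 ≠ 0)
    (hv : vt e = vt e')
    (h : N.mu * e 0 * e 1 + qf N.q (cv (e 0) (vt e)) = 0)
    (h' : N.mu * e' 0 * e' 1 + qf N.q (cv (e' 0) (vt e')) = 0) : e = e' := by
  have h1 : e 1 = e' 1 := by
    rw [← h0, ← hv] at h'
    have h2 : N.mu * e 0 * e 1 = N.mu * e 0 * e' 1 := by linarith
    exact mul_left_cancel₀ (mul_ne_zero N.mu0 hne) h2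
  funext i
  refine Fin.cases h0 (fun i => ?_) i
  refine Fin.cases ?_ (fun i => ?_) i
  · exact h1
  · exact congrFun hv i

theorem sqrt_pow_le (n X : ℕ) (hn : 2 ≤ n) (hX : 1 ≤ X) :
    Real.sqrt (4 * X) ^ n ≤ 2 ^ n * (X : ℝ) ^ (n - 1) := by
  have hX1 : (1 : ℝ) ≤ X := by exact_mod_cast hX
  have h1 : Real.sqrt (4 * X) = 2 * Real.sqrt X := by
    rw [Real.sqrt_mul (by norm_num)]
    congr 1
    rw [show (4 : ℝ) = 2 ^ 2 by norm_num]
    exact Real.sqrt_sq (by norm_num)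
  rw [h1, mul_pow]
  refine mul_le_mul_of_nonneg_left ?_ (by positivity)
  obtain ⟨k, rfl⟩ : ∃ k, n = k + 2 := ⟨n - 2, by omega⟩
  have h2 : Real.sqrt X ≤ X := by
    rw [Real.sqrt_le_left (by linarith)]
    nlinarith
  calc Real.sqrt X ^ (k + 2) = Real.sqrt X ^ k * (Real.sqrt X ^ 2) := by ring
    _ ≤ (X : ℝ) ^ k * X := by
        rw [Real.sq_sqrt (by linarith)]
        gcongr
    _ = (X : ℝ) ^ (k + 2 - 1) := by
        have : k + 2 - 1 = k + 1 := by omega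
        rw [this, pow_succ]

theorem pf_ECD (hGUP : T_GUP) (hCHE : T_CHE) : T_ECD := by
  classical
  intro n F N m0 K hn
  obtain ⟨CG, hCG0, hG⟩ := hGUP n (by omega)
  obtain ⟨_, CC, _, hCC0, hC⟩ := hCHE
  refine ⟨(m0 + 1) * CC * CG * ((2 * K + 1) ^ n + 2 ^ n), by positivity,
    (gr N.r).det.natAbs + 2, ?_⟩
  intro X hX
  have hX2 : 2 ≤ X := by omega
  have hX1 : (1 : ℝ) ≤ X := by exact_mod_cast (by omega : 1 ≤ X)
  have hlog : 0 < Real.log X := Real.log_pos (by exact_mod_cast (by omega : 1 < X))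
  set P := (Finset.Ioc X (4 * X)).filter Nat.Prime with hP
  have hPC := (hC X hX2).2
  -- one class
  have hcls : ∀ m l : ℕ, 1 ≤ m → l ∈ P →
      ((((EX N m0 K X).filter (fun e => e 0 = (m : ℤ) * l)).card : ℕ) : ℝ) ≤
        CG * ((2 * K + 1) ^ n + 2 ^ n) * (X : ℝ) ^ (n - 1) := by
    intro m l hm hl
    rw [hP, Finset.mem_filter, Finset.mem_Ioc] at hl
    obtain ⟨⟨hl1, hl2⟩, hlp⟩ := hl
    have hdet : ¬ (l : ℤ) ∣ (gr N.r).det := by
      intro hd
      have h1 : l ∣ (gr N.r).det.natAbs := by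
        rw [← Int.natCast_dvd]; exact hd
      have h2 : 0 < (gr N.r).det.natAbs := Int.natAbs_pos.2 N.nd
      have h3 := Nat.le_of_dvd h2 h1
      omega
    have h1 := hG N.r l 1 (2 * (K * X)) (fun _ => 0) (fun _ => -((K * X : ℕ) : ℤ)) hlp hdet le_rfl
      (fun h => hlp.one_lt.ne' (Nat.dvd_one.1 h))
    have h2 : ((EX N m0 K X).filter (fun e => e 0 = (m : ℤ) * l)).card ≤
        (((Fintype.piFinset fun i : Fin n => Finset.Icc (-((K * X : ℕ) : ℤ))
          (-((K * X : ℕ) : ℤ) + (2 * (K * X) : ℕ))).filter fun v =>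
        (∀ i, ((1 : ℕ) : ℤ) ∣ v i - 0) ∧ (l : ℤ) ∣ qf N.r v).card) := by
      refine Finset.card_le_card_of_injOn (fun e => vt e) ?_ ?_
      · intro e he
        rw [Finset.mem_coe, Finset.mem_filter] at he
        obtain ⟨he1, he2⟩ := he
        unfold EX at he1
        rw [Finset.mem_filter] at he1
        obtain ⟨hb, _, heq, _⟩ := he1
        rw [Finset.mem_coe, Finset.mem_filter]
        refine ⟨?_, fun i => by simp, dvd_r N l e (by rw [he2]; exact Dvd.intro_left _ rfl) heq⟩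
        rw [Fintype.mem_piFinset]
        intro i
        have h3 := vec_le hb i.succ.succ
        rw [Finset.mem_Icc]
        have h4 := abs_le.1 h3
        show -((K * X : ℕ) : ℤ) ≤ e i.succ.succ ∧ e i.succ.succ ≤ _
        push_cast at h4 ⊢
        constructor
        · linarith [h4.1]
        · linarith [h4.2]
      · intro e he e' he' hv
        rw [Finset.mem_coe, Finset.mem_filter] at he he'
        obtain ⟨he1, he2⟩ := he
        obtain ⟨he1', he2'⟩ := he'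
        unfold EX at he1 he1'
        rw [Finset.mem_filter] at he1 he1'
        refine ext_e N e e' (by rw [he2, he2']) ?_ hv he1.2.2.1 he1'.2.2.1
        rw [he2]
        have h3 : 0 < m * l := Nat.mul_pos hm hlp.pos
        exact_mod_cast h3.ne'
    have h3 : ((((EX N m0 K X).filter (fun e => e 0 = (m : ℤ) * l)).card : ℕ) : ℝ) ≤
        CG * (((((2 * (K * X) : ℕ) : ℝ)) / ((1 : ℕ) : ℝ) + 1) ^ n / l + Real.sqrt l ^ n) :=
      le_trans (by exact_mod_cast h2) h1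
    refine h3.trans ?_
    have hl0 : (0 : ℝ) < l := by exact_mod_cast hlp.pos
    have hlX : (X : ℝ) ≤ l := by exact_mod_cast hl1.le
    have hl4 : (l : ℝ) ≤ 4 * X := by exact_mod_cast hl2
    have hX0 : (0 : ℝ) < X := by linarith
    have h4 : ((((2 * (K * X) : ℕ) : ℝ)) / ((1 : ℕ) : ℝ) + 1) ^ n / l ≤
        (2 * K + 1) ^ n * (X : ℝ) ^ (n - 1) := by
      have h5 : ((((2 * (K * X) : ℕ) : ℝ)) / ((1 : ℕ) : ℝ) + 1) ≤ (2 * K + 1) * X := by
        push_cast
        rw [div_one]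
        nlinarith
      calc ((((2 * (K * X) : ℕ) : ℝ)) / ((1 : ℕ) : ℝ) + 1) ^ n / l ≤
            ((2 * K + 1) * X) ^ n / X := by
            gcongr
        _ = (2 * K + 1) ^ n * (X : ℝ) ^ (n - 1) := by
            obtain ⟨k, rfl⟩ : ∃ k, n = k + 1 := ⟨n - 1, by omega⟩
            rw [Nat.add_sub_cancel, mul_pow, pow_succ (X : ℝ) k]
            field_simp
    have h6 : Real.sqrt l ^ n ≤ 2 ^ n * (X : ℝ) ^ (n - 1) := by
      refine le_trans ?_ (sqrt_pow_le n X (by omega) (by omega))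
      gcongr
    calc CG * (((((2 * (K * X) : ℕ) : ℝ)) / ((1 : ℕ) : ℝ) + 1) ^ n / l + Real.sqrt l ^ n) ≤
          CG * ((2 * K + 1) ^ n * (X : ℝ) ^ (n - 1) + 2 ^ n * (X : ℝ) ^ (n - 1)) := by
          gcongr
      _ = _ := by ring
  -- all classes
  have hsub : EX N m0 K X ⊆ (Finset.Icc 1 m0 ×ˢ P).biUnion
      (fun q => (EX N m0 K X).filter (fun e => e 0 = (q.1 : ℤ) * q.2)) := by
    intro e he
    rw [Finset.mem_biUnion]
    have he' := he
    unfold EX at he'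
    rw [Finset.mem_filter] at he'
    obtain ⟨_, ⟨m, l, hm1, hm2, hlp, hl1, hl2, he0⟩, _⟩ := he'
    exact ⟨(m, l), Finset.mem_product.2 ⟨Finset.mem_Icc.2 ⟨hm1, hm2⟩,
      Finset.mem_filter.2 ⟨Finset.mem_Ioc.2 ⟨hl1, hl2⟩, hlp⟩⟩, Finset.mem_filter.2 ⟨he, he0⟩⟩
  have hD : (0 : ℝ) ≤ CG * ((2 * K + 1) ^ n + 2 ^ n) * (X : ℝ) ^ (n - 1) := by positivity
  calc ((EX N m0 K X).card : ℝ) ≤ ∑ q ∈ Finset.Icc 1 m0 ×ˢ P,
        ((((EX N m0 K X).filter (fun e => e 0 = (q.1 : ℤ) * q.2)).card : ℕ) : ℝ) := by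
        have h1 := (Finset.card_le_card hsub).trans Finset.card_biUnion_le
        exact_mod_cast h1
    _ ≤ ∑ _q ∈ Finset.Icc 1 m0 ×ˢ P,
        CG * ((2 * K + 1) ^ n + 2 ^ n) * (X : ℝ) ^ (n - 1) := by
        refine Finset.sum_le_sum fun q hq => ?_
        rw [Finset.mem_product, Finset.mem_Icc] at hq
        exact hcls q.1 q.2 hq.1.1 hq.2
    _ = (m0 : ℝ) * P.card * (CG * ((2 * K + 1) ^ n + 2 ^ n) * (X : ℝ) ^ (n - 1)) := by
        rw [Finset.sum_const, Finset.card_product, Nat.card_Icc, nsmul_eq_mul]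
        push_cast
        simp
    _ ≤ ((m0 : ℝ) + 1) * (CC * X / Real.log X) *
        (CG * ((2 * K + 1) ^ n + 2 ^ n) * (X : ℝ) ^ (n - 1)) := by
        gcongr
        linarith
    _ = _ := by
        obtain ⟨k, rfl⟩ : ∃ k, n = k + 1 := ⟨n - 1, by omega⟩
        rw [Nat.add_sub_cancel, pow_succ (X : ℝ) k]
        ring

end Pool.Agent.H67.HFQ
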