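import Pool.Agent.H34.FQ.Targets
import Pool.Agent.H1.RQ.VAR

/-!
# Row VR1 of hfq_modules: the second moment of the difference
-/

set_option autoImplicit false

open Finset

namespace Pool.Agent.H67.HFQ

open Pool.Agent.H32.RQ Pool.Agent.H34.FQ

section

variable {Q : ℕ} [NeZero Q]

/-- the Fourier expansion of the difference, for one vector -/
theorem diff1_eq (κ l : ZMod Q → ℝ) (hl : ∀ v : ZMod Q,
    (l v : ℂ) = (Q : ℂ)⁻¹ * ∑ j : ZMod Q, (κ j : ℂ) * ZMod.stdAddChar (j * v))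
    (v : ZMod Q) :
    (((if v = 0 then 1 else 0) - l v : ℝ) : ℂ) =
      (Q : ℂ)⁻¹ * ∑ j : ZMod Q, ((1 - κ j : ℝ) : ℂ) * ZMod.stdAddChar (j * v) := by
  have h4 : (((if v = 0 then 1 else 0) - l v : ℝ) : ℂ) =
      (if v = 0 then (1 : ℂ) else 0) - ((l v : ℝ) : ℂ) := by
    split_ifs <;> push_cast <;> ring
  rw [h4, Pool.Agent.H1.RQ.ind_eq, hl, ← mul_sub, ← Finset.sum_sub_distrib]
  congr 1
  refine Finset.sum_congr rfl fun j _ => ?_
  push_cast
  ring

end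

theorem pf_VR1 (hEXF : T_EXF) (hKPB : T_KPB) (hKPL : T_KPL) (hFJB : T_FJB) : T_VR1 := by
  intro s Q J W T _ S hJ hQ hW hWQ hTQ hWT
  have hκ := (hKPB Q W T hW hWQ hTQ hWT).1
  have hl := hKPL Q W T hW hWQ hTQ hWT
  have htri := (hFJB Q J hJ).2.1
  have hrr : ∀ (x y : Fin s → ℤ) (j k : ZMod Q), 0 ≤ rr Q J x y j k := fun x y j k =>
    Finset.prod_nonneg fun p _ => (htri _).1
  have hQ0 : (0 : ℝ) < Q := by exact_mod_cast Nat.pos_of_ne_zero (NeZero.ne Q)
  obtain ⟨κ, hκd⟩ : ∃ κ : ZMod Q → ℝ, κ = kap Q W T := ⟨_, rfl⟩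
  obtain ⟨l, hld⟩ : ∃ l : ZMod Q → ℝ, l = lam Q W T := ⟨_, rfl⟩
  rw [← hκd] at hκ
  have hl' : ∀ v : ZMod Q,
      (l v : ℂ) = (Q : ℂ)⁻¹ * ∑ j : ZMod Q, (κ j : ℂ) * ZMod.stdAddChar (j * v) := by
    rw [hκd, hld]
    exact hl
  obtain ⟨u, hu⟩ : ∃ u : (Fin s → ℤ) → (Mon s → ZMod Q) → ℝ, u = fun x f =>
      (if qf f (fun j => (x j : ZMod Q)) = 0 then 1 else 0) -
        l (qf f (fun j => (x j : ZMod Q))) := ⟨_, rfl⟩
  have hdiff : ∀ f : Mon s → ZMod Q, n1 Q S f - l1 Q W T S f = ∑ x ∈ S, u x f := by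
    intro f
    unfold n1 l1
    rw [← Finset.sum_sub_distrib, hu, hld]
  obtain ⟨C, hC⟩ : ∃ C : ZMod Q → ℝ, C = fun j => 1 - κ j := ⟨_, rfl⟩
  have hC1 : ∀ j, 0 ≤ C j := by
    intro j
    rw [hC]
    have := (hκ j).2
    simp only at this ⊢
    linarith
  have hC2 : ∀ j, C j ≤ 1 := by
    intro j
    rw [hC]
    have := (hκ j).1
    simp only at this ⊢
    linarith
  -- the correlations
  have hcor : ∀ x y : Fin s → ℤ, ∑ f : Mon s → ZMod Q, w1 Q J f * (u x f * u y f) =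
      ((Q : ℝ) / J) ^ md s * ((Q : ℝ)⁻¹ ^ 2 *
        ∑ j : ZMod Q, ∑ k : ZMod Q, C j * C k * rr Q J x y j k) := by
    intro x y
    have hxy : ∀ f : Mon s → ZMod Q, ((w1 Q J f * (u x f * u y f) : ℝ) : ℂ) =
        (Q : ℂ)⁻¹ ^ 2 * ∑ j : ZMod Q, ∑ k : ZMod Q, (C j : ℂ) * (C k : ℂ) *
          (((∏ p, fj Q J (f p) : ℝ) : ℂ) *
            ZMod.stdAddChar (j * qf f (fun a => (x a : ZMod Q)) +
              k * qf f (fun a => (y a : ZMod Q)))) := by
      intro f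
      have e1 : ((u x f : ℝ) : ℂ) = (Q : ℂ)⁻¹ * ∑ j : ZMod Q, (C j : ℂ) *
          ZMod.stdAddChar (j * qf f (fun a => (x a : ZMod Q))) := by
        rw [hu, hC]
        exact diff1_eq κ l hl' (qf f (fun a => (x a : ZMod Q)))
      have e2 : ((u y f : ℝ) : ℂ) = (Q : ℂ)⁻¹ * ∑ j : ZMod Q, (C j : ℂ) *
          ZMod.stdAddChar (j * qf f (fun a => (y a : ZMod Q))) := by
        rw [hu, hC]
        exact diff1_eq κ l hl' (qf f (fun a => (y a : ZMod Q)))
      rw [Complex.ofReal_mul, Complex.ofReal_mul, e1, e2]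
      have e3 : ((w1 Q J f : ℝ) : ℂ) = ((∏ p, fj Q J (f p) : ℝ) : ℂ) := rfl
      rw [e3]
      have e4 : ∀ (a b c d : ℂ), a * ((b * c) * (b * d)) = b ^ 2 * (a * (c * d)) := by
        intro a b c d
        ring
      rw [e4, Finset.sum_mul_sum, Finset.mul_sum]
      congr 1
      refine Finset.sum_congr rfl fun j _ => ?_
      rw [Finset.mul_sum]
      refine Finset.sum_congr rfl fun k _ => ?_
      rw [AddChar.map_add_eq_mul]
      ring
    have hsum : ((∑ f : Mon s → ZMod Q, w1 Q J f * (u x f * u y f) : ℝ) : ℂ) =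
        ((((Q : ℝ) / J) ^ md s * ((Q : ℝ)⁻¹ ^ 2 *
          ∑ j : ZMod Q, ∑ k : ZMod Q, C j * C k * rr Q J x y j k) : ℝ) : ℂ) := by
      rw [Complex.ofReal_sum, Finset.sum_congr rfl fun f _ => hxy f, ← Finset.mul_sum,
        Finset.sum_comm]
      have e6 : ∀ j : ZMod Q, ∑ f : Mon s → ZMod Q, ∑ k : ZMod Q,
          (C j : ℂ) * (C k : ℂ) * (((∏ p, fj Q J (f p) : ℝ) : ℂ) *
            ZMod.stdAddChar (j * qf f (fun a => (x a : ZMod Q)) +
              k * qf f (fun a => (y a : ZMod Q)))) =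
          ∑ k : ZMod Q, (C j : ℂ) * (C k : ℂ) *
            ((((Q : ℝ) / J) ^ md s * rr Q J x y j k : ℝ) : ℂ) := by
        intro j
        rw [Finset.sum_comm]
        refine Finset.sum_congr rfl fun k _ => ?_
        rw [← Finset.mul_sum, hEXF s Q J x y j k hJ hQ]
      rw [Finset.sum_congr rfl fun j _ => e6 j]
      push_cast
      rw [Finset.mul_sum, Finset.mul_sum, Finset.mul_sum]
      refine Finset.sum_congr rfl fun j _ => ?_
      rw [Finset.mul_sum, Finset.mul_sum, Finset.mul_sum]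
      refine Finset.sum_congr rfl fun k _ => ?_
      ring
    exact_mod_cast hsum
  -- the bound of the correlations
  have hbound : ∀ x y : Fin s → ℤ, (Q : ℝ)⁻¹ ^ 2 * (∑ j : ZMod Q,
      ∑ k : ZMod Q, C j * C k * rr Q J x y j k) ≤ pk Q J W T x y := by
    intro x y
    unfold pk
    rw [← hκd, div_eq_mul_inv, mul_comm, ← inv_pow]
    refine mul_le_mul_of_nonneg_right ?_ (by positivity)
    refine Finset.sum_le_sum fun j _ => Finset.sum_le_sum fun k _ => ?_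
    refine mul_le_mul_of_nonneg_right ?_ (hrr x y j k)
    have h1 : C j = 1 - κ j := by rw [hC]
    rw [← h1]
    calc C j * C k ≤ C j * 1 := mul_le_mul_of_nonneg_left (hC2 k) (hC1 j)
      _ = C j := mul_one _
  -- conclusion
  have hLHS : ∑ f : Mon s → ZMod Q, w1 Q J f * (n1 Q S f - l1 Q W T S f) ^ 2 =
      ∑ x ∈ S, ∑ y ∈ S, ∑ f : Mon s → ZMod Q, w1 Q J f * (u x f * u y f) := by
    have e1 : ∀ f : Mon s → ZMod Q, w1 Q J f * (n1 Q S f - l1 Q W T S f) ^ 2 =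
        ∑ x ∈ S, ∑ y ∈ S, w1 Q J f * (u x f * u y f) := by
      intro f
      rw [hdiff f, sq, Finset.sum_mul_sum, Finset.mul_sum]
      refine Finset.sum_congr rfl fun x _ => ?_
      rw [Finset.mul_sum]
    rw [Finset.sum_congr rfl fun f _ => e1 f, Finset.sum_comm]
    refine Finset.sum_congr rfl fun x _ => ?_
    rw [Finset.sum_comm]
  rw [hLHS, Finset.mul_sum]
  refine Finset.sum_le_sum fun x _ => ?_
  rw [Finset.mul_sum]
  refine Finset.sum_le_sum fun y _ => ?_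
  rw [hcor x y]
  exact mul_le_mul_of_nonneg_left (hbound x y) (by positivity)

end Pool.Agent.H67.HFQ
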